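import Pool.Agent.NPM.Gen

/-!
# Freiman models of dense subsets in all abelian groups, with nearly polynomial bounds

There is an absolute `C` such that for all `0 < η ≤ 1`, every abelian group `G` and every finite nonempty
`A ⊆ G` with `|A + A| ≤ K |A|` there are `A' ⊆ A` with `|A'| ≥ exp (-C (1 + log K)/η) |A|` and a finite abelian
group `H` with `|H| ≤ exp (C (1 + log K)^(1 + Cη)/η) |A'|` such that `A'` is Freiman isomorphic (order `2`)
to a subset of `H`.  Two consequences are stated: for every `ε > 0` one can have polynomial density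
`|A'| ≥ C⁻¹ K^(-C) |A|` and `|H| ≤ exp (C (1 + log K)^(1 + ε)) |A'|` with `C = C(ε)`; and one can have both
bounds with the loss `exp (C (1 + log K) (1 + log (1 + log K)))`, that is `K^(O(log log K))`.

Outline (files `Pool/Agent/NPM`).  Let `X` be uniform on `A`.  Among the random variables `Y` jointly
distributed with `X` one takes a near-minimiser of `H(X + X' | Y, Y') - H(X | Y) + η I(X : Y)`.  Comparing `Y`
with the refinement `(Y, X + Z_n, Y_1, ..., Y_n)`, `Z_n` the sum of `n` independent copies, one gets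
`h (2n+2) - h (2n) ≤ (1+η) (h (n+1) - h n)` for `h m = H(Z_m | Y_1, ..., Y_m)` (`Ext`, `Sdp`), so
`h m ≤ h 1 + (2 log K/η) m^c`, `c = log₂ (1+η)` (`Seq`).  For `M = (log K)^(1 + O(η))` translating `Z_M` by a
typical value of `X - X'` hardly changes its law (`Smo`), so all characters `ξ` with `E |φ_Y(ξ)|² ≥ 1 - 1/8M` are
close to `1` at the typical differences (`AvF`); these characters lift to real characters and their
annihilator is a subgroup `F` of `G`.  Outside the annihilator of `F` the characters are damped, and the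
entropy bound for `m = poly(log K)` summands forces that a typical coset of `F` is filled by `A` up to
`exp ((log K)^(1 + O(η)))` (`N2b`, `Inf`, `Lmp`, `Trf`, `Hvy`, `Sel`).  The group generated by the real lifts
is free, the quotient map lifts, and Ruzsa's model lemma (`Mdl`) gives the model `ℤ/N × F` (`Cht`, `Cnt`, `Cmb`).
-/

set_option autoImplicit false
open scoped Pointwise

namespace Pool.Agent.Results.MP_ce784b_co.AllGroups

private theorem iso_of_four {G H : Type} [AddCommGroup G] [AddCommGroup H] (A : Set G) (f : G → H)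
    (h : ∀ a ∈ A, ∀ b ∈ A, ∀ c ∈ A, ∀ d ∈ A, (a + b = c + d ↔ f a + f b = f c + f d)) :
    IsAddFreimanIso 2 A (f '' A) f := by
  rw [isAddFreimanIso_two]
  refine ⟨Set.InjOn.bijOn_image ?_, ?_⟩
  · intro x hx y hy hxy
    have := (h x hx x hx y hy x hx).2 (by rw [hxy])
    exact add_right_cancel this
  · intro x hx y hy z hz w hw
    exact (h x hx y hy z hz w hw).symm

theorem result :
    (∃ C : ℝ, 0 < C ∧ ∀ η : ℝ, 0 < η → η ≤ 1 →
      ∀ (G : Type) [AddCommGroup G] [DecidableEq G] (A : Finset G) (K : ℝ),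
        A.Nonempty → (((A + A).card : ℝ) ≤ K * (A.card : ℝ)) →
          ∃ A' : Finset G, A' ⊆ A ∧
            Real.exp (-(C * ((1 + Real.log K) / η))) * (A.card : ℝ) ≤ (A'.card : ℝ) ∧
            ∃ (H : Type) (_ : AddCommGroup H) (_ : Fintype H),
              (Fintype.card H : ℝ) ≤
                Real.exp (C * ((1 + Real.log K) ^ (1 + C * η) / η)) * (A'.card : ℝ) ∧
              ∃ (B : Set H) (f : G → H), IsAddFreimanIso 2 (A' : Set G) B f) ∧
    (∀ ε : ℝ, 0 < ε → ∃ C : ℝ, 0 < C ∧
      ∀ (G : Type) [AddCommGroup G] [DecidableEq G] (A : Finset G) (K : ℝ),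
        A.Nonempty → (((A + A).card : ℝ) ≤ K * (A.card : ℝ)) →
          ∃ A' : Finset G, A' ⊆ A ∧ C⁻¹ * K ^ (-C) * (A.card : ℝ) ≤ (A'.card : ℝ) ∧
            ∃ (H : Type) (_ : AddCommGroup H) (_ : Fintype H),
              (Fintype.card H : ℝ) ≤ Real.exp (C * (1 + Real.log K) ^ (1 + ε)) * (A'.card : ℝ) ∧
              ∃ (B : Set H) (f : G → H), IsAddFreimanIso 2 (A' : Set G) B f) ∧
    (∃ C : ℝ, 0 < C ∧
      ∀ (G : Type) [AddCommGroup G] [DecidableEq G] (A : Finset G) (K : ℝ),
        A.Nonempty → (((A + A).card : ℝ) ≤ K * (A.card : ℝ)) →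
          ∃ A' : Finset G, A' ⊆ A ∧
            Real.exp (-(C * ((1 + Real.log K) * (1 + Real.log (1 + Real.log K))))) * (A.card : ℝ)
              ≤ (A'.card : ℝ) ∧
            ∃ (H : Type) (_ : AddCommGroup H) (_ : Fintype H),
              (Fintype.card H : ℝ) ≤
                Real.exp (C * ((1 + Real.log K) * (1 + Real.log (1 + Real.log K)))) *
                  (A'.card : ℝ) ∧
              ∃ (B : Set H) (f : G → H), IsAddFreimanIso 2 (A' : Set G) B f) := by
  refine ⟨?_, ?_, ?_⟩
  · obtain ⟨C, hC, h⟩ := Pool.Agent.NPM.general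
    refine ⟨C, hC, fun η h0 h1 G _ _ A K hA hK => ?_⟩
    obtain ⟨A', hA', hc, H, i1, i2, f, hH, hf⟩ := h η h0 h1 G A K hA hK
    exact ⟨A', hA', hc, H, i1, i2, hH, f '' A', f, iso_of_four _ f (by simpa using hf)⟩
  · intro ε hε
    obtain ⟨C, hC, h⟩ := Pool.Agent.NPM.corA ε hε
    refine ⟨C, hC, fun G _ _ A K hA hK => ?_⟩
    obtain ⟨A', hA', hc, H, i1, i2, f, hH, hf⟩ := h G A K hA hK
    exact ⟨A', hA', hc, H, i1, i2, hH, f '' A', f, iso_of_four _ f (by simpa using hf)⟩
  · obtain ⟨C, hC, h⟩ := Pool.Agent.NPM.corB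
    refine ⟨C, hC, fun G _ _ A K hA hK => ?_⟩
    obtain ⟨A', hA', hc, H, i1, i2, f, hH, hf⟩ := h G A K hA hK
    exact ⟨A', hA', hc, H, i1, i2, hH, f '' A', f, iso_of_four _ f (by simpa using hf)⟩

end Pool.Agent.Results.MP_ce784b_co.AllGroups
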