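import Pool.Agent.WPF.Final

/-!
# Freiman models of dense subsets: arbitrary torsion at finitely many primes

Let `m ≥ 3`, `t ≥ 0` and let `G` be an abelian group such that, for every prime `p` not dividing `m`,
the set `{p y : p² y = 0}` has at most `p ^ t` elements (`t = 0`: no element of order `p²`).  Every
finite nonempty `A ⊆ G` with `|A + A| ≤ K |A|` has a subset `A'` with
`|A| ≤ 4 ^ t · 2 ^ 21 · K ^ (10 ^ 6 m ^ 8) |A'|` which is Freiman isomorphic of order `2` to a subset
of a finite abelian group `H` with `|H| ≤ 4 ^ t · 2 ^ 27 · K ^ (10 ^ 6 m ^ 8) |A'|`.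

Outline.  `G` may be taken finite (file `FinRed`).  Entropic polynomial Freiman-Ruzsa for `m`-torsion
groups (Gowers-Green-Manners-Tao, proved in `Pool.Agent.Ldc`) is applied on the cosets of subgroups
killed by `m` (`CondPfr`, `Low`) and in quotients by subgroups containing `m G` (`Upper`).  The
inequality `H(X mod m G) + H(Y mod G[m]) ≤ H(X - m Y) ≤ H(X) + 4 m d(X, Y)` (`Dil`) and
`|G[m]| = |G / m G|` compare the two ends.  A pair of subsets which is minimal for a suitable
functional is spread out modulo `m G₁`, `G₁` the group it generates (`Term`), and one gets a dense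
subset of `A` in a coset of `G₁`, and `F ≤ G₁` of `m`-power order whose cosets are almost filled and
with `|(G₁ / F)[m]| ≤ K ^ C` (`ExF`, `Weak`).  Then the `m`-primary part of `G₁ / F` has few cyclic factors and
lifts to a lattice after a further restriction (`Lift`, `Chart`), the prime-to-`m` part is
treated by `model_of_depth` (`Pool.Agent.H72.CE`), and `F` becomes a direct factor (`FinModel`).
-/

set_option autoImplicit false
open scoped Pointwise

namespace Pool.Agent.Results.MP_ce784b_co.FinitelyManyPrimes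

open Pool.Agent.H72.CE Pool.Agent.WPF

theorem result (m t : ℕ) (hm : 3 ≤ m) (G : Type) [AddCommGroup G] [DecidableEq G]
    (hG : ∀ p : ℕ, p.Prime → ¬ p ∣ m → {x : G | ∃ y : G, p • y = x ∧ p • x = 0}.Finite ∧
      {x : G | ∃ y : G, p • y = x ∧ p • x = 0}.ncard ≤ p ^ t)
    (A : Finset G) (K : ℝ) (hne : A.Nonempty) (hK : ((A + A).card : ℝ) ≤ K * (A.card : ℝ)) :
    ∃ A' : Finset G, A' ⊆ A ∧
      (A.card : ℝ) ≤ 4 ^ t * 2 ^ 21 * K ^ (10 ^ 6 * m ^ 8) * (A'.card : ℝ) ∧
      ∃ (H : Type) (_ : AddCommGroup H) (_ : Fintype H),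
        (Fintype.card H : ℝ) ≤ 4 ^ t * 2 ^ 27 * K ^ (10 ^ 6 * m ^ 8) * (A'.card : ℝ) ∧
        ∃ (B : Set H) (f : G → H), IsAddFreimanIso 2 (A' : Set G) B f := by
  classical
  have hApos : (0 : ℝ) < A.card := by exact_mod_cast hne.card_pos
  have hK1 : 1 ≤ K := by
    have h5 : (A.card : ℝ) ≤ (A + A).card := by exact_mod_cast Finset.card_le_card_add_self
    by_contra hlt
    push Not at hlt
    have : K * (A.card : ℝ) < 1 * A.card := by gcongr
    linarith
  obtain ⟨A', hsub, hcard, H, _, _, ψ, hFI, hH⟩ := model_all m t hm hG A K hne hK1 hK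
  have hA'f : A'.Finite := A.finite_toSet.subset hsub
  have hcoe : (hA'f.toFinset : Set G) = A' := hA'f.coe_toFinset
  have hncard : A'.ncard = hA'f.toFinset.card := Set.ncard_eq_toFinset_card A' hA'f
  rw [Set.ncard_coe_finset, hncard] at hcard
  rw [hncard] at hH
  let _ : Fintype H := Fintype.ofFinite H
  refine ⟨hA'f.toFinset, ?_, hcard, H, inferInstance, inferInstance, ?_, ψ '' A', ψ, ?_⟩
  · rw [← Finset.coe_subset, hcoe]
    exact hsub
  · rw [← Nat.card_eq_fintype_card]
    exact hH
  · rw [hcoe, isAddFreimanIso_two]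
    refine ⟨Set.InjOn.bijOn_image ?_, ?_⟩
    · intro x hx y hy hxy
      have := (hFI x hx x hx y hy x hx).2 (by rw [hxy])
      exact add_right_cancel this
    · intro x hx y hy z hz w hw
      exact (hFI x hx y hy z hz w hw).symm

end Pool.Agent.Results.MP_ce784b_co.FinitelyManyPrimes
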